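import Pool.Agent.Helper95.LN.Stmts
import Pool.Agent.Helper14.PW.POEb

/-!
# Row NB: the number of electrons near the nuclei and the field energy
-/

set_option autoImplicit false

namespace Pool.Agent.Helper47.LN

open MeasureTheory Filter Topology
open Pool.Agent.Helper95.PW Pool.Agent.Helper95.LN
open Pool.Agent.Helper14.PW

theorem nb_sq_nr (y : R3) : nr y ^ 2 = y 0 ^ 2 + y 1 ^ 2 + y 2 ^ 2 := by
  unfold nr
  rw [Real.sq_sqrt (by positivity)]

theorem nb_nr_nonneg (y : R3) : 0 ≤ nr y := Real.sqrt_nonneg _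

theorem nb_nr_cont : Continuous nr := by
  unfold nr
  fun_prop

theorem nb_nr_add (y z : R3) : nr (y + z) ≤ nr y + nr z := by
  have hy := nb_nr_nonneg y
  have hz := nb_nr_nonneg z
  have ey := nb_sq_nr y
  have ez := nb_sq_nr z
  refine Real.sqrt_le_iff.2 ⟨by positivity, ?_⟩
  simp only [Pi.add_apply]
  have hc : y 0 * z 0 + y 1 * z 1 + y 2 * z 2 ≤ nr y * nr z := by
    refine le_of_sq_le_sq ?_ (by positivity)
    rw [mul_pow, ey, ez]
    nlinarith [sq_nonneg (y 0 * z 1 - y 1 * z 0), sq_nonneg (y 0 * z 2 - y 2 * z 0),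
      sq_nonneg (y 1 * z 2 - y 2 * z 1)]
  nlinarith

theorem nb_nr_comm (y z : R3) : nr (y - z) = nr (z - y) := by
  unfold nr
  simp only [Pi.sub_apply]
  congr 1
  ring

theorem nb_tri (a b c : R3) : nr (a - c) ≤ nr (a - b) + nr (b - c) := by
  have h := nb_nr_add (a - b) (b - c)
  rwa [sub_add_sub_cancel] at h

/-- the bump -/
noncomputable def nbF (r R : ℝ) (w : R3) : ℝ :=
  Real.smoothTransition ((R ^ 2 - (w 0 ^ 2 + w 1 ^ 2 + w 2 ^ 2)) / (R ^ 2 - r ^ 2))

theorem nbF_cd (r R : ℝ) : ContDiff ℝ (⊤ : ℕ∞) (nbF r R) := by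
  unfold nbF
  refine Real.smoothTransition.contDiff.comp ?_
  have h := fun i : Fin 3 => (contDiff_apply ℝ ℝ i : ContDiff ℝ (⊤ : ℕ∞) fun w : R3 => w i)
  exact (contDiff_const.sub ((((h 0).pow 2).add ((h 1).pow 2)).add ((h 2).pow 2))).div_const _

theorem nbF_one {r R : ℝ} (hr : 0 ≤ r) (hR : r < R) {w : R3} (hw : nr w ≤ r) :
    nbF r R w = 1 := by
  unfold nbF
  refine Real.smoothTransition.one_of_one_le ?_
  have h1 : 0 < R ^ 2 - r ^ 2 := by nlinarith
  rw [le_div_iff₀ h1, ← nb_sq_nr]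
  have h2 : nr w ^ 2 ≤ r ^ 2 := pow_le_pow_left₀ (nb_nr_nonneg w) hw 2
  linarith

theorem nbF_zero {r R : ℝ} (hr : 0 ≤ r) (hR : r < R) {w : R3} (hw : R ≤ nr w) :
    nbF r R w = 0 := by
  unfold nbF
  refine Real.smoothTransition.zero_of_nonpos ?_
  have h1 : 0 < R ^ 2 - r ^ 2 := by nlinarith
  refine div_nonpos_of_nonpos_of_nonneg ?_ h1.le
  rw [← nb_sq_nr]
  have h2 : R ^ 2 ≤ nr w ^ 2 := pow_le_pow_left₀ (by linarith) hw 2
  linarith

theorem nbF_nonneg (r R : ℝ) (w : R3) : 0 ≤ nbF r R w := Real.smoothTransition.nonneg _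

theorem nbF_cs {r R : ℝ} (hr : 0 ≤ r) (hR : r < R) (a : R3) :
    HasCompactSupport (fun w => nbF r R (w - a)) := by
  refine HasCompactSupport.intro (isCompact_closedBall a R) fun w hw => ?_
  rw [Metric.mem_closedBall, dist_eq_norm, not_le] at hw
  exact nbF_zero hr hR (hw.le.trans (poe_le_nr _))

theorem nb_pd_sub (g : R3 → ℝ) (a : R3) (m : Fin 3) (w : R3) :
    pd m (fun w => g (w - a)) w = pd m g (w - a) := by
  unfold pd
  rw [fderiv_comp_sub]

theorem nb_pd_cd {g : R3 → ℝ} (hg : ContDiff ℝ (⊤ : ℕ∞) g) (i : Fin 3) :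
    ContDiff ℝ (⊤ : ℕ∞) (pd i g) := by
  unfold pd
  exact (hg.fderiv_right (m := (⊤ : ℕ∞)) (by simp)).clm_apply contDiff_const

/-- the derivative vanishes outside -/
theorem nb_pd_zero {r R : ℝ} (hr : 0 ≤ r) (hR : r < R) (m : Fin 3) {w : R3} (hw : R < nr w) :
    pd m (nbF r R) w = 0 := by
  have hev : nbF r R =ᶠ[𝓝 w] fun _ => (0 : ℝ) := by
    have ho : IsOpen {y : R3 | R < nr y} := isOpen_lt continuous_const nb_nr_cont
    filter_upwards [ho.mem_nhds hw] with y hy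
    exact nbF_zero hr hR (le_of_lt hy)
  unfold pd
  rw [hev.fderiv_eq]
  simp

theorem nb_pd_cs {g : R3 → ℝ} (hg : HasCompactSupport g) (i : Fin 3) :
    HasCompactSupport (pd i g) := by
  unfold pd
  exact (hg.fderiv ℝ).comp_left (g := fun L : R3 →L[ℝ] ℝ => L (Pi.single i 1)) (by simp)

/-- the derivative of the total potential -/
theorem nb_pt {n M : ℕ} {b : ℝ} (hph : ContDiff ℝ (⊤ : ℕ∞) (ph b)) (X : Fin M → R3)
    (Z : Fin M → ℝ) (x : Cf n) (m : Fin 3) (w : R3) :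
    pd m (Pt b X Z x) w = (∑ k, pd m (ph b) (w - x k)) - ∑ j, Z j * pd m (ph b) (w - X j) := by
  have hd : ∀ p : R3, HasFDerivAt (fun w => ph b (w - p)) (fderiv ℝ (ph b) (w - p)) w := by
    intro p
    have h1 : HasFDerivAt (ph b) (fderiv ℝ (ph b) (w - p)) (w - p) :=
      (hph.differentiable (by simp) (w - p)).hasFDerivAt
    have h2 : HasFDerivAt (fun w : R3 => w - p) (ContinuousLinearMap.id ℝ R3) w :=
      (hasFDerivAt_id w).sub_const p
    have h3 := h1.comp w h2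
    rw [ContinuousLinearMap.comp_id] at h3
    exact h3
  have h2 : HasFDerivAt (Pt b X Z x)
      ((∑ k, fderiv ℝ (ph b) (w - x k)) - ∑ j, Z j • fderiv ℝ (ph b) (w - X j)) w := by
    have s1 : HasFDerivAt (fun w => ∑ k, ph b (w - x k)) (∑ k, fderiv ℝ (ph b) (w - x k)) w :=
      HasFDerivAt.fun_sum fun k _ => hd (x k)
    have s2 : HasFDerivAt (fun w => ∑ j, Z j * ph b (w - X j))
        (∑ j, Z j • fderiv ℝ (ph b) (w - X j)) w :=
      HasFDerivAt.fun_sum fun j _ => (hd (X j)).const_mul (Z j)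
    exact s1.sub s2
  unfold pd
  rw [h2.fderiv]
  simp

theorem nb_pt_cd {n M : ℕ} {b : ℝ} (hph : ContDiff ℝ (⊤ : ℕ∞) (ph b)) (X : Fin M → R3)
    (Z : Fin M → ℝ) (x : Cf n) : ContDiff ℝ (⊤ : ℕ∞) (Pt b X Z x) := by
  unfold Pt
  have h : ∀ p : R3, ContDiff ℝ (⊤ : ℕ∞) (fun w => ph b (w - p)) :=
    fun p => hph.comp (contDiff_id.sub contDiff_const)
  exact (ContDiff.sum fun k _ => h (x k)).sub
    (ContDiff.sum fun j _ => contDiff_const.mul (h (X j)))

theorem nb_int {g F : R3 → ℝ} (hg : ContDiff ℝ (⊤ : ℕ∞) g) (hF : ContDiff ℝ (⊤ : ℕ∞) F)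
    (hFc : HasCompactSupport F) (p : R3) :
    Integrable (fun w => ∑ m, pd m g (w - p) * pd m F w) := by
  refine integrable_finsetSum _ fun m _ => ?_
  have c1 : Continuous (fun w => pd m g (w - p)) :=
    (nb_pd_cd hg m).continuous.comp (continuous_id.sub continuous_const)
  have c2 : Continuous (pd m F) := (nb_pd_cd hF m).continuous
  exact (c1.mul c2).integrable_of_hasCompactSupport ((nb_pd_cs hFc m).mul_left)

/-- GRD for the total potential -/
theorem nb_grd (hG : ST_GRD) {n M : ℕ} {b : ℝ} (hb : 0 < b)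
    (hph : ContDiff ℝ (⊤ : ℕ∞) (ph b)) (X : Fin M → R3) (Z : Fin M → ℝ) (x : Cf n)
    {F : R3 → ℝ} (hF : ContDiff ℝ (⊤ : ℕ∞) F) (hFc : HasCompactSupport F) :
    ∫ w, ∑ m, pd m (Pt b X Z x) w * pd m F w =
      (∑ k, ∫ w, F w * et b (w - x k)) - ∑ j, Z j * ∫ w, F w * et b (w - X j) := by
  have hI : ∀ p : R3, Integrable (fun w => ∑ m, pd m (ph b) (w - p) * pd m F w) :=
    fun p => nb_int hph hF hFc p
  have e : ∀ w, ∑ m, pd m (Pt b X Z x) w * pd m F w =
      (∑ k, ∑ m, pd m (ph b) (w - x k) * pd m F w) -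
        ∑ j, Z j * ∑ m, pd m (ph b) (w - X j) * pd m F w := by
    intro w
    have e1 : ∑ k, ∑ m, pd m (ph b) (w - x k) * pd m F w =
        ∑ m, ∑ k, pd m (ph b) (w - x k) * pd m F w := Finset.sum_comm
    have e2 : ∑ j, Z j * ∑ m, pd m (ph b) (w - X j) * pd m F w =
        ∑ m, ∑ j, Z j * (pd m (ph b) (w - X j) * pd m F w) := by
      rw [Finset.sum_comm]
      exact Finset.sum_congr rfl fun j _ => Finset.mul_sum _ _ _
    rw [e1, e2, ← Finset.sum_sub_distrib]
    refine Finset.sum_congr rfl fun m _ => ?_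
    rw [nb_pt hph, sub_mul, Finset.sum_mul, Finset.sum_mul]
    congr 1
    exact Finset.sum_congr rfl fun j _ => by ring
  simp only [e]
  rw [integral_sub (integrable_finsetSum _ fun k _ => hI _)
    (integrable_finsetSum _ fun j _ => (hI _).const_mul _),
    integral_finsetSum _ fun k _ => hI _, integral_finsetSum _ fun j _ => (hI _).const_mul _]
  simp only [integral_const_mul, hG b _ F hb hF hFc]

/-- the number of near electrons as an integral against the field -/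
theorem nb_low (hG : ST_GRD) (hC : ST_PHC) {n M : ℕ} {d z : ℝ} (hd : 0 < d)
    (hph : ContDiff ℝ (⊤ : ℕ∞) (ph (d / 8))) {X : Fin M → R3} (hX : Sep X d) {Z : Fin M → ℝ}
    (hZ : ∀ j, Z j ≤ z) (x : Cf n) (i : Fin M) :
    kap * cnt X (3 / 2 * d) x i - z * kap ≤
      ∫ w, ∑ m, pd m (Pt (d / 8) X Z x) w *
        pd m (fun w => nbF (13 / 8 * d) (19 / 10 * d) (w - X i)) w := by
  obtain ⟨_, hkap, _, hC2⟩ := hC
  have hb : 0 < d / 8 := by positivity
  obtain ⟨_, het0, hetz, _, _, hint⟩ := hC2 (d / 8) hb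
  have hr : (0 : ℝ) ≤ 13 / 8 * d := by positivity
  have hR : 13 / 8 * d < 19 / 10 * d := by nlinarith
  have hFc := nbF_cs hr hR (X i)
  have hF : ContDiff ℝ (⊤ : ℕ∞) (fun w => nbF (13 / 8 * d) (19 / 10 * d) (w - X i)) :=
    (nbF_cd _ _).comp (contDiff_id.sub contDiff_const)
  rw [nb_grd hG hb hph X Z x hF hFc]
  have htr : ∀ p : R3, ∫ w, et (d / 8) (w - p) = kap := by
    intro p
    rw [integral_sub_right_eq_self (fun w => et (d / 8) w) p, hint]
  have near : ∀ p : R3, nr (p - X i) < 3 / 2 * d →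
      ∫ w, nbF (13 / 8 * d) (19 / 10 * d) (w - X i) * et (d / 8) (w - p) = kap := by
    intro p hp
    rw [← htr p]
    congr 1
    funext w
    by_cases hw : d / 8 ≤ nr (w - p)
    · rw [hetz _ hw, mul_zero]
    · have h1 := nb_tri w p (X i)
      rw [nbF_one hr hR (by linarith), one_mul]
  have s1 : kap * cnt X (3 / 2 * d) x i ≤
      ∑ k, ∫ w, nbF (13 / 8 * d) (19 / 10 * d) (w - X i) * et (d / 8) (w - x k) := by
    unfold cnt
    rw [Finset.mul_sum]
    refine Finset.sum_le_sum fun k _ => ?_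
    split_ifs with h
    · rw [near (x k) h, mul_one]
    · rw [mul_zero]
      exact integral_nonneg fun w => mul_nonneg (nbF_nonneg _ _ _) (het0 _)
  have s2 : ∑ j, Z j * ∫ w, nbF (13 / 8 * d) (19 / 10 * d) (w - X i) * et (d / 8) (w - X j) ≤
      z * kap := by
    have hz : ∀ j, j ≠ i →
        ∫ w, nbF (13 / 8 * d) (19 / 10 * d) (w - X i) * et (d / 8) (w - X j) = 0 := by
      intro j hj
      have e0 : (fun w => nbF (13 / 8 * d) (19 / 10 * d) (w - X i) * et (d / 8) (w - X j)) =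
          fun _ => 0 := by
        funext w
        by_cases hw : d / 8 ≤ nr (w - X j)
        · rw [hetz _ hw, mul_zero]
        · have h1 := nb_tri (X j) w (X i)
          have h2 := hX j i hj
          rw [nb_nr_comm (X j) w] at h1
          rw [nbF_zero hr hR (by linarith), zero_mul]
      rw [e0, integral_zero]
    rw [Finset.sum_eq_single i (fun j _ hj => by rw [hz j hj, mul_zero])
      (fun h => absurd (Finset.mem_univ i) h)]
    have h3 : nr (X i - X i) < 3 / 2 * d := by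
      rw [sub_self]
      have : nr (0 : R3) = 0 := by simp [nr]
      rw [this]
      positivity
    rw [near (X i) h3]
    exact mul_le_mul_of_nonneg_right (hZ i) hkap.le
  linarith

/-- Cauchy-Schwarz on a ball -/
theorem nb_cs {P F : R3 → ℝ} (hP : ContDiff ℝ (⊤ : ℕ∞) P) (hF : ContDiff ℝ (⊤ : ℕ∞) F)
    (hFc : HasCompactSupport F) {B : Set R3} (hB : MeasurableSet B)
    (hz : ∀ m, ∀ w ∉ B, pd m F w = 0)
    (hS : Integrable (fun w => ∑ m, pd m P w ^ 2)) {t : ℝ} (ht : 0 < t) :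
    ∫ w, ∑ m, pd m P w * pd m F w ≤
      t / 2 * (∫ w, B.indicator (fun w => ∑ m, pd m P w ^ 2) w) +
        1 / (2 * t) * ∫ w, ∑ m, pd m F w ^ 2 := by
  have i1 : Integrable (fun w => ∑ m, pd m P w * pd m F w) := by
    have := nb_int hP hF hFc 0
    simpa using this
  have i2 : Integrable (B.indicator (fun w => ∑ m, pd m P w ^ 2)) := hS.indicator hB
  have i3 : Integrable (fun w => ∑ m, pd m F w ^ 2) := by
    refine integrable_finsetSum _ fun m _ => ?_
    have c2 : Continuous (pd m F) := (nb_pd_cd hF m).continuous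
    have e : (fun w => pd m F w ^ 2) = fun w => pd m F w * pd m F w := by
      funext w
      ring
    rw [e]
    exact (c2.mul c2).integrable_of_hasCompactSupport ((nb_pd_cs hFc m).mul_left)
  rw [← integral_const_mul, ← integral_const_mul, ← integral_add (i2.const_mul _) (i3.const_mul _)]
  refine integral_mono i1 ((i2.const_mul _).add (i3.const_mul _)) fun w => ?_
  show ∑ m, pd m P w * pd m F w ≤ t / 2 * B.indicator (fun w => ∑ m, pd m P w ^ 2) w +
    1 / (2 * t) * ∑ m, pd m F w ^ 2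
  by_cases hw : w ∈ B
  · rw [Set.indicator_of_mem hw, Finset.mul_sum, Finset.mul_sum, ← Finset.sum_add_distrib]
    refine Finset.sum_le_sum fun m _ => ?_
    have h1 : 0 ≤ (t * pd m P w - pd m F w) ^ 2 / (2 * t) := by positivity
    have h2 : t / 2 * pd m P w ^ 2 + 1 / (2 * t) * pd m F w ^ 2 - pd m P w * pd m F w =
        (t * pd m P w - pd m F w) ^ 2 / (2 * t) := by
      field_simp
      ring
    linarith
  · rw [Set.indicator_of_notMem hw]
    have h0 : ∀ m, pd m F w = 0 := fun m => hz m w hw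
    simp [h0]

theorem nb_alg {K c z P Q τ : ℝ} (hK : 0 < K) (hc : 0 ≤ c) (hQ : 0 ≤ Q)
    (hτ : τ = 2 * (Q + 1) / K)
    (h : K * c - z * K ≤ τ / (c + 1) / 2 * P + 1 / (2 * (τ / (c + 1))) * Q) :
    c ^ 2 ≤ 2 * (z + 1 / 2) ^ 2 + τ / K * P := by
  have hτ0 : 0 < τ := by
    rw [hτ]
    positivity
  have h1 : (K * c - z * K) * (c + 1) ≤ τ / 2 * P + (c + 1) ^ 2 * (Q / (2 * τ)) := by
    have h2 := mul_le_mul_of_nonneg_right h (show 0 ≤ c + 1 by linarith)
    refine h2.trans (le_of_eq ?_)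
    field_simp
  have h3 : Q / (2 * τ) ≤ K / 4 := by
    rw [div_le_iff₀ (by positivity), hτ]
    have : K / 4 * (2 * (2 * (Q + 1) / K)) = Q + 1 := by
      field_simp
      ring
    rw [this]
    linarith
  have h4 := mul_le_mul_of_nonneg_left h3 (sq_nonneg (c + 1))
  have h5 : K * (c ^ 2 / 2) ≤ K * (z + 1 / 2) ^ 2 + τ / 2 * P := by
    have h6 : 0 ≤ K * ((c / 2 - z) ^ 2 + c / 2) := by positivity
    nlinarith
  have h7 : K * c ^ 2 ≤ K * (2 * (z + 1 / 2) ^ 2 + τ / K * P) := by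
    have : K * (2 * (z + 1 / 2) ^ 2 + τ / K * P) = 2 * (K * (z + 1 / 2) ^ 2 + τ / 2 * P) := by
      field_simp
    rw [this]
    linarith
  exact le_of_mul_le_mul_left h7 hK

theorem NB (h1 : ST_GRD) (h2 : ST_PHA) (_h3 : ST_PHB) (h4 : ST_PHC) (h5 : ST_DEX) : ST_NB := by
  intro z d hz hd
  have hkap : 0 < kap := h4.2.1
  have hb : 0 < d / 8 := by positivity
  have hph : ContDiff ℝ (⊤ : ℕ∞) (ph (d / 8)) := (h2 (d / 8) hb).1
  have hr : (0 : ℝ) ≤ 13 / 8 * d := by positivity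
  have hR : 13 / 8 * d < 19 / 10 * d := by nlinarith
  obtain ⟨Q, hQ⟩ : ∃ Q, Q = ∫ w, ∑ m, pd m (nbF (13 / 8 * d) (19 / 10 * d)) w ^ 2 := ⟨_, rfl⟩
  have hQ0 : 0 ≤ Q := by
    rw [hQ]
    exact integral_nonneg fun w => Finset.sum_nonneg fun m _ => sq_nonneg _
  obtain ⟨τ, hτ⟩ : ∃ τ, τ = 2 * (Q + 1) / kap := ⟨_, rfl⟩
  have hτ0 : 0 < τ := by
    rw [hτ]
    positivity
  refine ⟨2 * (z + 1 / 2) ^ 2 + τ, by positivity, ?_⟩
  intro n M X Z x hX _ hZz
  obtain ⟨hS, _⟩ := h5 (d / 8) n M X Z x hb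
  have hP := nb_pt_cd hph X Z x
  let B : Fin M → Set R3 := fun i => {w | nr (w - X i) < 2 * d}
  have hB : ∀ i, MeasurableSet (B i) := fun i =>
    (isOpen_lt (nb_nr_cont.comp (continuous_id.sub continuous_const))
      continuous_const).measurableSet
  have hc0 : ∀ i, 0 ≤ cnt X (3 / 2 * d) x i := by
    intro i
    unfold cnt
    refine Finset.sum_nonneg fun k _ => ?_
    split_ifs
    · exact zero_le_one
    · exact le_rfl
  have key : ∀ i, cnt X (3 / 2 * d) x i ^ 2 ≤ 2 * (z + 1 / 2) ^ 2 +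
      τ / kap * ∫ w, (B i).indicator (fun w => ∑ m, pd m (Pt (d / 8) X Z x) w ^ 2) w := by
    intro i
    have hF : ContDiff ℝ (⊤ : ℕ∞) (fun w => nbF (13 / 8 * d) (19 / 10 * d) (w - X i)) :=
      (nbF_cd _ _).comp (contDiff_id.sub contDiff_const)
    have hFc := nbF_cs hr hR (X i)
    have hQi : ∫ w, ∑ m, pd m (fun w => nbF (13 / 8 * d) (19 / 10 * d) (w - X i)) w ^ 2 = Q := by
      rw [hQ, ← integral_sub_right_eq_self
        (fun w => ∑ m, pd m (nbF (13 / 8 * d) (19 / 10 * d)) w ^ 2) (X i)]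
      simp only [nb_pd_sub]
    have hz0 : ∀ m, ∀ w ∉ B i,
        pd m (fun w => nbF (13 / 8 * d) (19 / 10 * d) (w - X i)) w = 0 := by
      intro m w hw
      rw [nb_pd_sub]
      have h6 : 2 * d ≤ nr (w - X i) := not_lt.1 hw
      exact nb_pd_zero hr hR m (by nlinarith)
    have ht : 0 < τ / (cnt X (3 / 2 * d) x i + 1) := by
      have := hc0 i
      positivity
    have h7 := nb_cs hP hF hFc (hB i) hz0 hS ht
    rw [hQi] at h7
    exact nb_alg hkap (hc0 i) hQ0 hτ ((nb_low h1 h4 hd hph hX hZz x i).trans h7)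
  have hsum : ∑ i, ∫ w, (B i).indicator (fun w => ∑ m, pd m (Pt (d / 8) X Z x) w ^ 2) w ≤
      kap * Dn (d / 8) X Z x := by
    have e1 : kap * Dn (d / 8) X Z x = ∫ w, ∑ m, pd m (Pt (d / 8) X Z x) w ^ 2 := by
      unfold Dn
      rw [← mul_assoc, mul_one_div_cancel hkap.ne', one_mul]
    rw [e1, ← integral_finsetSum _ fun i _ => hS.indicator (hB i)]
    refine integral_mono (integrable_finsetSum _ fun i _ => hS.indicator (hB i)) hS fun w => ?_
    show ∑ i, (B i).indicator (fun w => ∑ m, pd m (Pt (d / 8) X Z x) w ^ 2) w ≤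
      ∑ m, pd m (Pt (d / 8) X Z x) w ^ 2
    have hnn : 0 ≤ ∑ m, pd m (Pt (d / 8) X Z x) w ^ 2 := Finset.sum_nonneg fun m _ => sq_nonneg _
    by_cases hw : ∃ i, w ∈ B i
    · obtain ⟨i, hi⟩ := hw
      rw [Finset.sum_eq_single i ?_ (fun h => absurd (Finset.mem_univ i) h)]
      · rw [Set.indicator_of_mem hi]
      · intro j _ hj
        refine Set.indicator_of_notMem (fun hjw => ?_) _
        have g1 : nr (w - X i) < 2 * d := hi
        have g2 : nr (w - X j) < 2 * d := hjw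
        have g3 := hX j i hj
        have g4 := nb_tri (X j) w (X i)
        rw [nb_nr_comm (X j) w] at g4
        linarith
    · rw [Finset.sum_eq_zero fun i _ => Set.indicator_of_notMem (fun h => hw ⟨i, h⟩) _]
      exact hnn
  have hD : 0 ≤ Dn (d / 8) X Z x := by
    unfold Dn
    exact mul_nonneg (by positivity)
      (integral_nonneg fun w => Finset.sum_nonneg fun m _ => sq_nonneg _)
  calc ∑ i, cnt X (3 / 2 * d) x i ^ 2
      ≤ ∑ i, (2 * (z + 1 / 2) ^ 2 +
        τ / kap * ∫ w, (B i).indicator (fun w => ∑ m, pd m (Pt (d / 8) X Z x) w ^ 2) w) :=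
        Finset.sum_le_sum fun i _ => key i
    _ = 2 * (z + 1 / 2) ^ 2 * M + τ / kap *
        ∑ i, ∫ w, (B i).indicator (fun w => ∑ m, pd m (Pt (d / 8) X Z x) w ^ 2) w := by
        rw [Finset.sum_add_distrib, Finset.mul_sum, Finset.sum_const, Finset.card_univ,
          Fintype.card_fin, nsmul_eq_mul, mul_comm (M : ℝ)]
    _ ≤ 2 * (z + 1 / 2) ^ 2 * M + τ / kap * (kap * Dn (d / 8) X Z x) := by
        have := mul_le_mul_of_nonneg_left hsum (show 0 ≤ τ / kap by positivity)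
        linarith
    _ = 2 * (z + 1 / 2) ^ 2 * M + τ * Dn (d / 8) X Z x := by
        field_simp
    _ ≤ (2 * (z + 1 / 2) ^ 2 + τ) * (M + Dn (d / 8) X Z x) := by
        have hM : (0 : ℝ) ≤ M := Nat.cast_nonneg M
        have g1 : 0 ≤ 2 * (z + 1 / 2) ^ 2 * Dn (d / 8) X Z x := by positivity
        have g2 : 0 ≤ τ * (M : ℝ) := by positivity
        nlinarith

end Pool.Agent.Helper47.LN
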